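import Pool.Agent.H349Z.PC.Inv

/-!
Passing from lists to functions on `Fin n`.
-/

namespace Pool.Agent.H349Z.PC

theorem card_eq_length {α : Type} [Finite α] (φ : α → List ℕ) (hφ : Function.Injective φ)
    (P : α → Prop) (L : List (List ℕ)) (hL : L.Nodup) (h : ∀ l, l ∈ L ↔ ∃ a, P a ∧ φ a = l) :
    Nat.card {a // P a} = L.length := by
  have h1 : Nat.card {a // P a} = Set.ncard {a | P a} := rfl
  rw [h1, ← Set.ncard_image_of_injective _ hφ, ← List.toFinset_card_of_nodup hL,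
    ← Set.ncard_coe_finset]
  congr 1
  ext l
  simp [h]

theorem cons_sub_iff (a : ℕ) (s : List ℕ) : ∀ l : List ℕ,
    (a :: s).Sublist l ↔ ∃ j : ℕ, l[j]? = some a ∧ s.Sublist (l.drop (j + 1))
  | [] => by simp
  | x :: l => by
    rw [List.cons_sublist_cons', cons_sub_iff a s l]
    constructor
    · rintro (⟨j, h1, h2⟩ | ⟨rfl, h⟩)
      · exact ⟨j + 1, by simpa using h1, by simpa using h2⟩
      · exact ⟨0, rfl, by simpa using h⟩
    · rintro ⟨j, h1, h2⟩
      cases j with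
      | zero => exact Or.inr ⟨by simpa using h1.symm, by simpa using h2⟩
      | succ j => exact Or.inl ⟨j, by simpa using h1, by simpa using h2⟩

theorem pair_sub_drop (a d m : ℕ) (l : List ℕ) :
    [a, d].Sublist (l.drop m) ↔ ∃ j k : ℕ, m ≤ j ∧ j < k ∧ l[j]? = some a ∧ l[k]? = some d := by
  simp only [cons_sub_iff, List.drop_drop, List.getElem?_drop, List.nil_sublist, and_true]
  constructor
  · rintro ⟨j, h1, k, h2⟩
    exact ⟨m + j, m + (j + 1) + k, by omega, by omega, h1, h2⟩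
  · rintro ⟨j, k, h1, h2, h3, h4⟩
    refine ⟨j - m, by rwa [Nat.add_sub_cancel' h1], k - (j + 1), ?_⟩
    rwa [show m + (j - m + 1) + (k - (j + 1)) = k by omega]

theorem av_iff : ∀ l : List ℕ, Av l ↔ ∀ i b c a d : ℕ, l[i]? = some b → l[i + 1]? = some c →
    [a, d].Sublist (l.drop (i + 2)) → a < b → b < c → d ≤ c
  | [] => by simp [Av]
  | [x] => by simp [Av]
  | x :: y :: l => by
    rw [Av, av_iff (y :: l)]
    constructor
    · rintro ⟨h1, h2⟩ i b c a d e1 e2 e3 hab hbc
      cases i with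
      | zero =>
        simp only [List.getElem?_cons_zero, Option.some.injEq, zero_add,
          List.getElem?_cons_succ] at e1 e2
        subst e1 e2
        exact h1 hbc a d (by simpa using e3) hab
      | succ i => exact h2 i b c a d (by simpa using e1) (by simpa using e2) (by simpa using e3) hab hbc
    · intro h
      exact ⟨fun hbc a d hs hab => h 0 x y a d rfl rfl (by simpa using hs) hab hbc,
        fun i b c a d e1 e2 e3 hab hbc =>
          h (i + 1) b c a d (by simpa using e1) (by simpa using e2) (by simpa using e3) hab hbc⟩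

theorem ofFn_get {n : ℕ} (f : Fin n → ℕ) (i x : ℕ) :
    (List.ofFn f)[i]? = some x ↔ ∃ h : i < n, f ⟨i, h⟩ = x := by
  rw [List.getElem?_ofFn]
  split_ifs with h
  · simp [h]
  · simp [h]

theorem av_ofFn {n : ℕ} (f : Fin n → Fin n) : Av (List.ofFn (fun i => (f i).val)) ↔
    ¬ ∃ i i' j l : Fin n, i'.val = i.val + 1 ∧ i' < j ∧ j < l ∧
      f j < f i ∧ f i < f i' ∧ f i' < f l := by
  rw [av_iff]
  simp only [pair_sub_drop, ofFn_get]
  constructor
  · rintro h ⟨i, i', j, l, h1, h2, h3, h4, h5, h6⟩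
    have hi : i.val + 1 < n := h1 ▸ i'.2
    have e : (⟨i.val + 1, hi⟩ : Fin n) = i' := Fin.ext h1.symm
    have := h i (f i) (f i') (f j) (f l) ⟨i.2, rfl⟩ ⟨hi, by rw [e]⟩
      ⟨j, l, by have := Fin.lt_def.1 h2; omega, h3, ⟨j.2, rfl⟩, ⟨l.2, rfl⟩⟩ h4 h5
    exact absurd (Fin.lt_def.1 h6) (not_lt.2 this)
  · rintro h i b c a d ⟨hi, rfl⟩ ⟨hi', rfl⟩ ⟨j, k, h1, h2, ⟨hj, rfl⟩, ⟨hk, rfl⟩⟩ hab hbc
    by_contra hd
    exact h ⟨⟨i, hi⟩, ⟨i + 1, hi'⟩, ⟨j, hj⟩, ⟨k, hk⟩, rfl, Fin.lt_def.2 (by simp; omega),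
      Fin.lt_def.2 h2, hab, hbc, not_le.1 hd⟩

theorem rmin_ofFn : ∀ (n : ℕ) (f : Fin n → ℕ), rmin (List.ofFn f) =
    (Finset.univ.filter (fun i : Fin n => ∀ j : Fin n, i < j → f i < f j)).card
  | 0, f => by simp [rmin]
  | n + 1, f => by
    rw [List.ofFn_succ, rmin, rmin_ofFn n, Fin.card_filter_univ_succ']
    rw [add_comm]
    congr 1
    · congr 1
      simp [List.forall_mem_ofFn_iff, Fin.forall_fin_succ]
    · congr 1
      ext i
      simp [Fin.forall_fin_succ]

theorem count_ofFn : ∀ (n : ℕ) (f : Fin n → ℕ), (List.ofFn f).count 0 =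
    (Finset.univ.filter (fun i : Fin n => f i = 0)).card
  | 0, f => by simp
  | n + 1, f => by
    rw [List.ofFn_succ, List.count_cons, count_ofFn n, Fin.card_filter_univ_succ', add_comm]
    simp

theorem inj_val {n : ℕ} : Function.Injective
    (fun f : Fin n → Fin n => List.ofFn (fun i => (f i).val)) := by
  intro f g h
  have := List.ofFn_injective h
  funext i
  exact Fin.ext (congrFun this i)

theorem perm_side (n k : ℕ) : Nat.card {π : Equiv.Perm (Fin n) //
    (¬ ∃ i i' j l : Fin n, i'.val = i.val + 1 ∧ i' < j ∧ j < l ∧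
      π j < π i ∧ π i < π i' ∧ π i' < π l) ∧
    Nat.card {i : Fin n // ∀ j : Fin n, i < j → π i < π j} = k} = (all n 0 (.F k)).length := by
  rw [← List.length_map lab]
  apply card_eq_length (fun π : Equiv.Perm (Fin n) => List.ofFn (fun i => (π i).val))
  · intro π σ h
    exact DFunLike.coe_injective (inj_val h)
  · refine (nodup_all n 0 _).map_on (fun φ hφ ψ hψ he => ?_)
    obtain ⟨l, rfl, -⟩ := ok_F ((mem_all _ _ _ _).1 hφ).1
    obtain ⟨l', rfl, -⟩ := ok_F ((mem_all _ _ _ _).1 hψ).1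
    simp only [lab] at he
    rw [he]
  · intro l
    have hr : ∀ π : Equiv.Perm (Fin n), rmin (List.ofFn (fun i => (π i).val)) =
        Nat.card {i : Fin n // ∀ j : Fin n, i < j → π i < π j} := by
      intro π
      rw [rmin_ofFn, Nat.card_eq_fintype_card, Fintype.card_subtype]
      rfl
    have hrange : List.range' 0 n = List.ofFn (fun i : Fin n => i.val) := by
      apply List.ext_getElem <;> simp
    simp only [List.mem_map, mem_all]
    constructor
    · rintro ⟨φ, ⟨h1, h2⟩, rfl⟩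
      obtain ⟨l, rfl, h3, h4⟩ := ok_F h1
      simp only [lab] at h2 ⊢
      have hlen : l.length = n := by simpa using h2.length_eq
      have hlt : ∀ x ∈ l, x < n := by
        intro x hx
        have := List.mem_range'_1.1 (h2.subset hx)
        omega
      have hnd : l.Nodup := h2.nodup_iff.2 (List.nodup_range' 1)
      let f : Fin n → Fin n := fun i => ⟨l[i.val]'(by omega), hlt _ (List.getElem_mem _)⟩
      have hf : Function.Injective f := by
        intro i j hij
        simp only [f, Fin.mk.injEq] at hij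
        exact Fin.ext ((List.Nodup.getElem_inj_iff hnd).1 hij)
      let π : Equiv.Perm (Fin n) := Equiv.ofBijective f (Finite.injective_iff_bijective.1 hf)
      have he : List.ofFn (fun i => (π i).val) = l := by
        apply List.ext_getElem
        · simp [hlen]
        · intro i h5 h6
          simp [π, f]
      refine ⟨π, ⟨?_, ?_⟩, he⟩
      · exact (av_ofFn π).1 (he ▸ h3)
      · rw [← hr, he, h4]
    · rintro ⟨π, ⟨h1, h2⟩, rfl⟩
      refine ⟨.f _, ⟨⟨(av_ofFn π).2 h1, by rw [hr, h2]⟩, ?_⟩, rfl⟩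
      rw [hrange]
      exact Equiv.Perm.ofFn_comp_perm π (fun i : Fin n => i.val)

theorem inv_side (n k : ℕ) : Nat.card {e : Fin n → Fin n //
    (∀ i : Fin n, (e i).val ≤ i.val) ∧
    (¬ ∃ i j l : Fin n, i < j ∧ j < l ∧ e i = e j ∧ e l < e j) ∧
    Nat.card {i : Fin n // (e i).val = 0} = k} =
    ((allI n).filter (fun l => l.count 0 = k)).length := by
  apply card_eq_length _ inj_val _ _ ((nodup_allI n).filter _)
  intro l
  have h1 : ∀ e : Fin n → Fin n, IsInv (List.ofFn (fun i => (e i).val)) ↔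
      ∀ i : Fin n, (e i).val ≤ i.val := by
    intro e
    simp only [IsInv, ofFn_get]
    exact ⟨fun h i => h i _ ⟨i.2, rfl⟩, by rintro h i x ⟨hi, rfl⟩; exact h ⟨i, hi⟩⟩
  have h2 : ∀ e : Fin n → Fin n, Av110 (List.ofFn (fun i => (e i).val)) ↔
      ¬ ∃ i j l : Fin n, i < j ∧ j < l ∧ e i = e j ∧ e l < e j := by
    intro e
    simp only [Av110]
    simp only [cons_sub_iff _ [_, _], pair_sub_drop, ofFn_get]
    constructor
    · rintro h ⟨i, j, l, h1, h2, h3, h4⟩
      have := h (e j) (e l) ⟨i, ⟨i.2, by rw [← h3]⟩, j, l, h1, h2, ⟨j.2, rfl⟩, ⟨l.2, rfl⟩⟩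
      exact absurd (Fin.lt_def.1 h4) (not_lt.2 this)
    · rintro h a b ⟨i, ⟨hi, rfl⟩, j, k, h1, h2, ⟨hj, h3⟩, ⟨hk, rfl⟩⟩
      by_contra hd
      exact h ⟨⟨i, hi⟩, ⟨j, hj⟩, ⟨k, hk⟩, Fin.lt_def.2 h1, Fin.lt_def.2 h2, Fin.ext h3.symm,
        Fin.lt_def.2 (by omega)⟩
  have h3 : ∀ e : Fin n → Fin n, (List.ofFn (fun i => (e i).val)).count 0 =
      Nat.card {i : Fin n // (e i).val = 0} := by
    intro e
    rw [count_ofFn, Nat.card_eq_fintype_card, Fintype.card_subtype]
  simp only [List.mem_filter, mem_allI, decide_eq_true_eq]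
  constructor
  · rintro ⟨⟨hl, hi, ha⟩, hc⟩
    let e : Fin n → Fin n := fun i => ⟨l[i.val]'(by omega),
      lt_of_le_of_lt (hi i _ (List.getElem?_eq_getElem _)) i.2⟩
    have he : List.ofFn (fun i => (e i).val) = l := by
      apply List.ext_getElem
      · simp [hl]
      · intro i h5 h6
        simp [e]
    exact ⟨e, ⟨(h1 e).1 (he ▸ hi), (h2 e).1 (he ▸ ha), by rw [← h3, he, hc]⟩, he⟩
  · rintro ⟨e, ⟨i1, i2, i3⟩, rfl⟩
    exact ⟨⟨by simp, (h1 e).2 i1, (h2 e).2 i2⟩, by rw [h3, i3]⟩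

end Pool.Agent.H349Z.PC
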