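import Pool.Agent.H349Z.PC.States

/-!
The list of all fillings of a state.
-/

namespace Pool.Agent.H349Z.PC

/-- A move is injective on good fillings. -/
def Inj (t : ℕ) (m : St × (Fl → Fl)) : Prop :=
  ∀ φ ψ, Good t m.1 φ → Good t m.1 ψ → m.2 φ = m.2 ψ → φ = ψ

/-- Two moves have disjoint images. -/
def Dis (t : ℕ) (m m' : St × (Fl → Fl)) : Prop :=
  ∀ φ ψ, Good t m.1 φ → Good t m'.1 ψ → m.2 φ ≠ m'.2 ψ

theorem good_C {t : ℕ} {a b : St} {φ : Fl} (h : Good t (.C a b) φ) :
    ∃ x y, φ = .c x y ∧ Good t a x ∧ Good t b y := by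
  obtain ⟨x, y, rfl, h1, h2, -⟩ := ok_C h.1
  exact ⟨x, y, rfl, ⟨h1, fun p hp => h.2 p (List.mem_append_left _ hp)⟩,
    ⟨h2, fun p hp => h.2 p (List.mem_append_right _ hp)⟩⟩

theorem good_B {t : ℕ} {a : St} {φ : Fl} (h : Good t (.B a) φ) :
    ∃ x l, φ = .b x l ∧ Good t a x ∧ ∀ p ∈ l, t < p := by
  obtain ⟨x, l, rfl, h1, -⟩ := ok_B h.1
  exact ⟨x, l, rfl, ⟨h1, fun p hp => h.2 p (List.mem_append_left _ hp)⟩,
    fun p hp => h.2 p (List.mem_append_right _ hp)⟩

theorem good_F {t r : ℕ} {φ : Fl} (h : Good t (.F r) φ) : ∃ l, φ = .f l := by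
  obtain ⟨l, rfl, -⟩ := ok_F h.1
  exact ⟨l, rfl⟩

theorem good_G {t : ℕ} {φ : Fl} (h : Good t .G φ) : ∃ l, φ = .f l := by
  obtain ⟨l, rfl, -⟩ := ok_G h.1
  exact ⟨l, rfl⟩

theorem inj_onL {t : ℕ} {m : St × (Fl → Fl)} (b : St) (h : Inj t m) :
    Inj t (.C m.1 b, onL m.2) := by
  intro φ ψ h1 h2 he
  obtain ⟨x, y, rfl, hx, -⟩ := good_C h1
  obtain ⟨x', y', rfl, hx', -⟩ := good_C h2
  simp only [onL, Fl.c.injEq] at he
  rw [h x x' hx hx' he.1, he.2]

theorem inj_onR {t : ℕ} {m : St × (Fl → Fl)} (a : St) (h : Inj t m) :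
    Inj t (.C a m.1, onR m.2) := by
  intro φ ψ h1 h2 he
  obtain ⟨x, y, rfl, -, hy⟩ := good_C h1
  obtain ⟨x', y', rfl, -, hy'⟩ := good_C h2
  simp only [onR, Fl.c.injEq] at he
  rw [h y y' hy hy' he.2, he.1]

theorem inj_onB {t : ℕ} {m : St × (Fl → Fl)} (h : Inj t m) : Inj t (.B m.1, onB m.2) := by
  intro φ ψ h1 h2 he
  obtain ⟨x, y, rfl, hx, -⟩ := good_B h1
  obtain ⟨x', y', rfl, hx', -⟩ := good_B h2
  simp only [onB, Fl.b.injEq] at he
  rw [h x x' hx hx' he.1, he.2]

theorem dis_onL {t : ℕ} {m m' : St × (Fl → Fl)} (b : St) (h : Dis t m m') :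
    Dis t (.C m.1 b, onL m.2) (.C m'.1 b, onL m'.2) := by
  intro φ ψ h1 h2 he
  obtain ⟨x, y, rfl, hx, -⟩ := good_C h1
  obtain ⟨x', y', rfl, hx', -⟩ := good_C h2
  simp only [onL, Fl.c.injEq] at he
  exact h x x' hx hx' he.1

theorem dis_onR {t : ℕ} {m m' : St × (Fl → Fl)} (a : St) (h : Dis t m m') :
    Dis t (.C a m.1, onR m.2) (.C a m'.1, onR m'.2) := by
  intro φ ψ h1 h2 he
  obtain ⟨x, y, rfl, -, hy⟩ := good_C h1
  obtain ⟨x', y', rfl, -, hy'⟩ := good_C h2
  simp only [onR, Fl.c.injEq] at he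
  exact h y y' hy hy' he.2

theorem dis_onB {t : ℕ} {m m' : St × (Fl → Fl)} (h : Dis t m m') :
    Dis t (.B m.1, onB m.2) (.B m'.1, onB m'.2) := by
  intro φ ψ h1 h2 he
  obtain ⟨x, y, rfl, hx, -⟩ := good_B h1
  obtain ⟨x', y', rfl, hx', -⟩ := good_B h2
  simp only [onB, Fl.b.injEq] at he
  exact h x x' hx hx' he.1

theorem not_lab {t : ℕ} {W W' : St} {x x' : Fl} {g : Fl → Fl} (_ : Good t W x)
    (hl : (lab (g x)).Perm (t :: lab x)) (h' : Good t W' x') : g x ≠ x' := by
  intro he
  have : t ∈ lab x' := by rw [← he]; exact hl.symm.subset (by simp)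
  exact lt_irrefl _ (h'.2 t this)

theorem injI (t : ℕ) : ∀ (W : St), ∀ m ∈ mvI t W, Inj t m
  | .F 0, m, hm => by simp [mvI] at hm
  | .F (r + 1), m, hm => by
    simp only [mvI, List.mem_singleton] at hm
    subst hm
    intro φ ψ h1 h2 he
    obtain ⟨x, l, rfl, hx, hl⟩ := good_B h1
    obtain ⟨x', l', rfl, hx', hl'⟩ := good_B h2
    obtain ⟨τ, rfl⟩ := good_F hx
    obtain ⟨τ', rfl⟩ := good_F hx'
    simp only [join, Fl.f.injEq] at he
    obtain ⟨rfl, rfl⟩ := split_inj hl hl' he
    rfl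
  | .G, m, hm => by
    simp only [mvI, List.mem_singleton] at hm
    subst hm
    intro φ ψ h1 h2 he
    obtain ⟨x, l, rfl, hx, hl⟩ := good_B h1
    obtain ⟨x', l', rfl, hx', hl'⟩ := good_B h2
    obtain ⟨τ, rfl⟩ := good_G hx
    obtain ⟨τ', rfl⟩ := good_G hx'
    simp only [join, Fl.f.injEq] at he
    obtain ⟨rfl, rfl⟩ := split_inj hl hl' he
    rfl
  | .C a b, m, hm => by
    simp only [mvI, List.mem_append, List.mem_map] at hm
    rcases hm with ⟨m', hm', rfl⟩ | ⟨m', hm', rfl⟩
    · exact inj_onL b (injI t a m' hm')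
    · exact inj_onR a (injI t b m' hm')
  | .B a, m, hm => by
    simp only [mvI, List.mem_append, List.mem_map, List.mem_singleton] at hm
    rcases hm with ⟨m', hm', rfl⟩ | rfl
    · exact inj_onB (injI t a m' hm')
    · intro φ ψ h1 h2 he
      obtain ⟨z, l, rfl, hz, hl⟩ := good_B h1
      obtain ⟨z', l', rfl, hz', hl'⟩ := good_B h2
      obtain ⟨x, y, rfl, -, hy⟩ := good_C hz
      obtain ⟨x', y', rfl, -, hy'⟩ := good_C hz'
      obtain ⟨τ, rfl⟩ := good_G hy
      obtain ⟨τ', rfl⟩ := good_G hy'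
      simp only [joinB, Fl.b.injEq] at he
      obtain ⟨rfl, rfl⟩ := split_inj hl hl' he.2
      rw [he.1]

theorem injL (t : ℕ) : ∀ (W : St), ∀ m ∈ mvL t W, Inj t m
  | .F 0, m, hm => by simp [mvL] at hm
  | .F (r + 1), m, hm => by
    simp only [mvL, List.mem_singleton] at hm
    subst hm
    intro φ ψ h1 h2 he
    obtain ⟨τ, rfl⟩ := good_F h1
    obtain ⟨τ', rfl⟩ := good_F h2
    simpa [consF] using he
  | .G, m, hm => by
    simp only [mvL, List.mem_singleton] at hm
    subst hm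
    intro φ ψ h1 h2 he
    obtain ⟨τ, rfl⟩ := good_G h1
    obtain ⟨τ', rfl⟩ := good_G h2
    simpa [consF] using he
  | .C a b, m, hm => by
    simp only [mvL, List.mem_append, List.mem_map] at hm
    rcases hm with ⟨m', hm', rfl⟩ | hm
    · exact inj_onL b (injL t a m' hm')
    · split_ifs at hm with hn
      · obtain ⟨m', hm', rfl⟩ := List.mem_map.1 hm
        intro φ ψ h1 h2 he
        simp only [onE, Fl.c.injEq, true_and] at he
        exact injL t b m' hm' φ ψ h1 h2 he
      · simp at hm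
  | .B a, m, hm => by
    simp only [mvL, List.mem_append, List.mem_map, List.mem_singleton] at hm
    rcases hm with ⟨m', hm', rfl⟩ | rfl
    · exact inj_onB (injL t a m' hm')
    · intro φ ψ h1 h2 he
      obtain ⟨x, y, rfl, -, hy⟩ := good_C h1
      obtain ⟨x', y', rfl, -, hy'⟩ := good_C h2
      obtain ⟨τ, rfl⟩ := good_G hy
      obtain ⟨τ', rfl⟩ := good_G hy'
      simpa [consB] using he

theorem disI (t : ℕ) : ∀ (W : St), (mvI t W).Pairwise (Dis t)
  | .F 0 => by simp [mvI]
  | .F (r + 1) => by simp [mvI]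
  | .G => by simp [mvI]
  | .C a b => by
    simp only [mvI, List.pairwise_append, List.pairwise_map, List.mem_map]
    refine ⟨(disI t a).imp (fun h => dis_onL b h), (disI t b).imp (fun h => dis_onR a h), ?_⟩
    rintro _ ⟨m, hm, rfl⟩ _ ⟨m', hm', rfl⟩ φ ψ h1 h2 he
    obtain ⟨x, y, rfl, hx, -⟩ := good_C h1
    obtain ⟨x', y', rfl, hx', -⟩ := good_C h2
    simp only [onL, onR, Fl.c.injEq] at he
    exact not_lab hx (soundI t a m hm x hx).2.1 hx' he.1
  | .B a => by
    simp only [mvI, List.pairwise_append, List.pairwise_map, List.mem_map, List.mem_singleton]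
    refine ⟨(disI t a).imp (fun h => dis_onB h), by simp, ?_⟩
    rintro _ ⟨m, hm, rfl⟩ _ rfl φ ψ h1 h2 he
    obtain ⟨x, y, rfl, hx, -⟩ := good_B h1
    obtain ⟨z', l', rfl, hz', -⟩ := good_B h2
    obtain ⟨x', y', rfl, hx', hy'⟩ := good_C hz'
    obtain ⟨τ', rfl⟩ := good_G hy'
    simp only [onB, joinB, Fl.b.injEq] at he
    exact not_lab hx (soundI t a m hm x hx).2.1 hx' he.1

theorem disL (t : ℕ) : ∀ (W : St), (mvL t W).Pairwise (Dis t)
  | .F 0 => by simp [mvL]
  | .F (r + 1) => by simp [mvL]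
  | .G => by simp [mvL]
  | .C a b => by
    simp only [mvL, List.pairwise_append, List.pairwise_map, List.mem_map]
    refine ⟨(disL t a).imp (fun h => dis_onL b h), ?_, ?_⟩
    · split_ifs
      · rw [List.pairwise_map]
        refine (disL t b).imp (fun h φ ψ h1 h2 he => ?_)
        simp only [onE, Fl.c.injEq, true_and] at he
        exact h φ ψ h1 h2 he
      · simp
    · rintro _ ⟨m, hm, rfl⟩ m' hm' φ ψ h1 h2 he
      split_ifs at hm' with hn
      · obtain ⟨m'', -, rfl⟩ := List.mem_map.1 hm'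
        obtain ⟨x, y, rfl, hx, -⟩ := good_C h1
        simp only [onL, onE, Fl.c.injEq] at he
        have hg : Good t a (emp a) := ⟨(emp_ok a hn).1, by simp [(emp_ok a hn).2.1]⟩
        exact not_lab hx (soundL t a m hm x hx).2.1 hg he.1
      · simp at hm'
  | .B a => by
    simp only [mvL, List.pairwise_append, List.pairwise_map, List.mem_map, List.mem_singleton]
    refine ⟨(disL t a).imp (fun h => dis_onB h), by simp, ?_⟩
    rintro _ ⟨m, hm, rfl⟩ _ rfl φ ψ h1 h2 he
    obtain ⟨x, y, rfl, hx, -⟩ := good_B h1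
    obtain ⟨x', y', rfl, hx', hy'⟩ := good_C h2
    obtain ⟨τ', rfl⟩ := good_G hy'
    simp only [onB, consB, Fl.b.injEq] at he
    exact not_lab hx (soundL t a m hm x hx).2.1 hx' he.1

theorem dis_all (t : ℕ) (W : St) : (mvI t W ++ mvL t W).Pairwise (Dis t) := by
  rw [List.pairwise_append]
  refine ⟨disI t W, disL t W, fun m hm m' hm' φ ψ h1 h2 he => ?_⟩
  have h3 := ((soundL t W m' hm' ψ h2).2.2 t).2 (Or.inl rfl)
  rw [← he, (soundI t W m hm φ h1).2.2 t] at h3
  exact lt_irrefl _ (h1.2 t (lv_sub φ t h3))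

/-- All fillings of `W` by the letters `t, …, t + n - 1`. -/
def all : ℕ → ℕ → St → List Fl
  | 0, _, W => if nul W then [emp W] else []
  | n + 1, t, W => (mvI t W ++ mvL t W).flatMap (fun m => (all n (t + 1) m.1).map m.2)

theorem mem_all : ∀ (n t : ℕ) (W : St) (φ : Fl),
    φ ∈ all n t W ↔ ok W φ ∧ (lab φ).Perm (List.range' t n)
  | 0, t, W, φ => by
    simp only [all, List.range'_zero, List.perm_nil]
    constructor
    · intro h
      split_ifs at h with hn
      · rw [List.mem_singleton.1 h]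
        exact ⟨(emp_ok W hn).1, (emp_ok W hn).2.1⟩
      · simp at h
    · rintro ⟨h1, h2⟩
      obtain ⟨h3, h4⟩ := eq_emp W φ h1 h2
      rw [if_pos h3, h4]
      simp
  | n + 1, t, W, φ => by
    have hr : ∀ p ∈ List.range' (t + 1) n, t < p := by
      intro p hp
      have := List.mem_range'_1.1 hp
      omega
    simp only [all, List.mem_flatMap, List.mem_map, mem_all n (t + 1), List.range'_succ]
    constructor
    · rintro ⟨m, hm, ψ, ⟨h1, h2⟩, rfl⟩
      have hg : Good t m.1 ψ := ⟨h1, fun p hp => hr p (h2.subset hp)⟩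
      rcases List.mem_append.1 hm with hm | hm
      · obtain ⟨i1, i2, -⟩ := soundI t W m hm ψ hg
        exact ⟨i1, i2.trans (h2.cons t)⟩
      · obtain ⟨i1, i2, -⟩ := soundL t W m hm ψ hg
        exact ⟨i1, i2.trans (h2.cons t)⟩
    · rintro ⟨h1, h2⟩
      rcases complete t W φ _ h1 h2 hr with ⟨m, hm, ψ, hg, rfl⟩ | ⟨m, hm, ψ, hg, rfl⟩
      · exact ⟨m, List.mem_append_left _ hm, ψ,
          ⟨hg.1, ((soundI t W m hm ψ hg).2.1.symm.trans h2).cons_inv⟩, rfl⟩
      · exact ⟨m, List.mem_append_right _ hm, ψ,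
          ⟨hg.1, ((soundL t W m hm ψ hg).2.1.symm.trans h2).cons_inv⟩, rfl⟩

theorem good_of_mem {n t : ℕ} {W : St} {φ : Fl} (h : φ ∈ all n (t + 1) W) : Good t W φ := by
  obtain ⟨h1, h2⟩ := (mem_all n (t + 1) W φ).1 h
  refine ⟨h1, fun p hp => ?_⟩
  have := List.mem_range'_1.1 (h2.subset hp)
  omega

theorem nodup_all : ∀ (n t : ℕ) (W : St), (all n t W).Nodup
  | 0, t, W => by
    simp only [all]
    split_ifs <;> simp
  | n + 1, t, W => by
    simp only [all]
    rw [List.nodup_flatMap]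
    constructor
    · intro m hm
      refine (nodup_all n (t + 1) m.1).map_on (fun φ hφ ψ hψ he => ?_)
      rcases List.mem_append.1 hm with hm | hm
      · exact injI t W m hm φ ψ (good_of_mem hφ) (good_of_mem hψ) he
      · exact injL t W m hm φ ψ (good_of_mem hφ) (good_of_mem hψ) he
    · refine (dis_all t W).imp (fun {m m'} h => ?_)
      intro φ h1 h2
      obtain ⟨x, hx, rfl⟩ := List.mem_map.1 h1
      obtain ⟨y, hy, he⟩ := List.mem_map.1 h2
      exact h x y (good_of_mem hx) (good_of_mem hy) he.symm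

open PowerSeries

/-- The series `1 / (1 - X)`. -/
noncomputable def uu : ℤ⟦X⟧ := mk 1

/-- The derivation `X / (1 - X) · d/dX`. -/
noncomputable def opI (z : ℤ⟦X⟧) : ℤ⟦X⟧ := uu * (X * d⁄dX ℤ z)

/-- The shift. -/
noncomputable def opL (z : ℤ⟦X⟧) : ℤ⟦X⟧ := mk fun n => coeff (n + 1) z

theorem uu_mul : uu * (1 - X) = 1 := mk_one_mul_one_sub_eq_one ℤ

theorem shift_eq (z : ℤ⟦X⟧) : z = X * opL z + C (constantCoeff z) :=
  eq_X_mul_shift_add_const z

theorem opL_X_mul (z : ℤ⟦X⟧) : opL (X * z) = z := by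
  ext n; simp [opL, coeff_succ_X_mul]

theorem opL_add (y z : ℤ⟦X⟧) : opL (y + z) = opL y + opL z := by
  ext n; simp [opL]

theorem opI_add (y z : ℤ⟦X⟧) : opI (y + z) = opI y + opI z := by
  simp only [opI, map_add]; ring

theorem opI_zero : opI 0 = 0 := by simp [opI]

theorem opL_zero : opL 0 = 0 := by ext n; simp [opL]

theorem opI_mul (y z : ℤ⟦X⟧) : opI (y * z) = opI y * z + y * opI z := by
  simp only [opI, Derivation.leibniz, smul_eq_mul]; ring

theorem opI_X : opI X = uu * X := by simp [opI]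

theorem opI_C (a : ℤ) : opI (C a) = 0 := by simp [opI]

theorem opL_C_mul (a : ℤ) (z : ℤ⟦X⟧) : opL (C a * z) = C a * opL z := by
  ext n; simp only [opL, coeff_mk, coeff_C_mul]

theorem opL_mul (y z : ℤ⟦X⟧) : opL (y * z) = opL y * z + C (constantCoeff y) * opL z := by
  conv_lhs => rw [shift_eq y]
  rw [add_mul, mul_assoc, opL_add, opL_X_mul, opL_C_mul]

theorem opL_opI (z : ℤ⟦X⟧) : opL (opI z) = uu * d⁄dX ℤ z := by
  rw [opI, mul_left_comm, opL_X_mul]

theorem X_mul_uu : X * uu = uu + C (-1) := by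
  have := uu_mul
  simp only [map_neg, map_one]
  linear_combination -this

theorem opL_uu : opL uu = uu := by
  ext n; simp [opL, uu]

/-- The series attached to a state. -/
noncomputable def zz : St → ℤ⟦X⟧
  | .F r => X ^ r
  | .G => uu
  | .C a b => zz a * zz b
  | .B a => opI (X * zz a)

theorem cc_zz : ∀ W : St, constantCoeff (zz W) = if nul W then 1 else 0
  | .F 0 => by simp [zz, nul]
  | .F (r + 1) => by simp [zz, nul]
  | .G => by simp [zz, nul, uu]
  | .C a b => by
    simp only [zz, map_mul, cc_zz a, cc_zz b, nul]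
    by_cases ha : nul a = true <;> by_cases hb : nul b = true <;> simp [ha, hb]
  | .B a => by simp [zz, nul, opI]

theorem sum_opI (l : List (St × (Fl → Fl))) :
    (l.map (fun m => opI (X * zz m.1))).sum = opI (X * (l.map (fun m => zz m.1)).sum) := by
  induction l with
  | nil => simp [opI_zero]
  | cons m l ih => simp only [List.map_cons, List.sum_cons, ih, mul_add, opI_add]

theorem sumI (t : ℕ) : ∀ W : St, ((mvI t W).map (fun m => zz m.1)).sum = opI (zz W)
  | .F 0 => by simp [mvI, zz, opI]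
  | .F (r + 1) => by simp [mvI, zz, pow_succ']
  | .G => by
    simp only [mvI, zz, X_mul_uu, opI_add, opI_C, List.map_cons, List.map_nil, List.sum_cons,
      List.sum_nil, add_zero]
  | .C a b => by
    simp only [mvI, List.map_append, List.map_map, List.sum_append, Function.comp_def, zz,
      List.sum_map_mul_right, List.sum_map_mul_left, sumI t a, sumI t b, opI_mul]
  | .B a => by
    simp only [mvI, List.map_append, List.map_map, List.sum_append, Function.comp_def, zz,
      sum_opI, sumI t a, List.map_cons, List.map_nil, List.sum_cons, List.sum_nil, add_zero]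
    rw [← opI_add]
    congr 1
    rw [opI_mul, opI_X]
    ring

theorem sumL (t : ℕ) : ∀ W : St, ((mvL t W).map (fun m => zz m.1)).sum = opL (zz W)
  | .F 0 => by
    ext n
    simp [mvL, zz, opL, coeff_one]
  | .F (r + 1) => by simp [mvL, zz, pow_succ', opL_X_mul]
  | .G => by simp [mvL, zz, opL_uu]
  | .C a b => by
    simp only [mvL, List.map_append, List.map_map, List.sum_append, Function.comp_def, zz,
      List.sum_map_mul_right, sumL t a, opL_mul, cc_zz a]
    split_ifs
    · simp [List.map_map, Function.comp_def, sumL t b]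
    · simp
  | .B a => by
    simp only [mvL, List.map_append, List.map_map, List.sum_append, Function.comp_def, zz,
      sum_opI, sumL t a, List.map_cons, List.map_nil, List.sum_cons, List.sum_nil, add_zero]
    have h1 : opI (X * opL (zz a)) = opI (zz a) := by
      conv_rhs => rw [shift_eq (zz a)]
      rw [opI_add, opI_C, add_zero]
    rw [h1, opL_opI, opI]
    simp only [Derivation.leibniz, smul_eq_mul, derivative_X]
    ring

/-- The counting functional. -/
noncomputable def EE : ℕ → ℤ⟦X⟧ → ℤ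
  | 0, z => constantCoeff z
  | n + 1, z => EE n (opI z + opL z)

theorem EE_add : ∀ (n : ℕ) (y z : ℤ⟦X⟧), EE n (y + z) = EE n y + EE n z
  | 0, y, z => by simp [EE]
  | n + 1, y, z => by
    simp only [EE, opI_add, opL_add]
    rw [← EE_add n]
    congr 1
    ring

theorem EE_zero : ∀ n : ℕ, EE n 0 = 0
  | 0 => by simp [EE]
  | n + 1 => by simp [EE, opI_zero, opL_zero, EE_zero n]

theorem EE_sum (n : ℕ) (l : List (St × (Fl → Fl))) :
    (l.map (fun m => EE n (zz m.1))).sum = EE n (l.map (fun m => zz m.1)).sum := by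
  induction l with
  | nil => simp [EE_zero]
  | cons m l ih => simp only [List.map_cons, List.sum_cons, ih, EE_add]

theorem length_all : ∀ (n t : ℕ) (W : St), ((all n t W).length : ℤ) = EE n (zz W)
  | 0, t, W => by
    simp only [all, EE, cc_zz]
    split_ifs <;> simp
  | n + 1, t, W => by
    simp only [all, EE, List.length_flatMap, List.length_map]
    rw [← sumI t W, ← sumL t W, ← List.sum_append, ← List.map_append, ← EE_sum]
    generalize mvI t W ++ mvL t W = l
    induction l with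
    | nil => simp
    | cons m l ih =>
      simp only [List.map_cons, List.sum_cons, Nat.cast_add, ih, length_all n (t + 1) m.1]

end Pool.Agent.H349Z.PC
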