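import Pool.Agent.H349Z.PC.Count

/-!
Inversion sequences avoiding 110, counted by the number of zeros.
-/

namespace Pool.Agent.H349Z.PC

/-- The pattern of `m` ones followed by a zero. -/
def pat (m : ℕ) : List ℕ := List.replicate m 1 ++ [0]

/-- Lists that become `e` when every entry is decreased by one and that avoid `pat m`. -/
def lifts : ℕ → List ℕ → List (List ℕ)
  | _, [] => [[]]
  | m, (x + 1) :: e => (lifts m e).map ((x + 2) :: ·)
  | 0, 0 :: e => (lifts 0 e).map (1 :: ·)
  | m + 1, 0 :: e => (lifts (m + 1) e).map (0 :: ·) ++ (lifts m e).map (1 :: ·)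

theorem pat_zero : pat 0 = [0] := rfl

theorem pat_succ (m : ℕ) : pat (m + 1) = 1 :: pat m := rfl

theorem pat_not_nil (m : ℕ) : ¬ (pat m).Sublist [] := by simp [pat]

theorem pat_cons_big (m x : ℕ) (l : List ℕ) :
    (pat m).Sublist ((x + 2) :: l) ↔ (pat m).Sublist l := by
  cases m with
  | zero => simp [pat_zero]
  | succ m => rw [pat_succ, List.cons_sublist_cons']; simp

theorem mem_lifts : ∀ (m : ℕ) (e l : List ℕ),
    l ∈ lifts m e ↔ l.map (· - 1) = e ∧ ¬ (pat m).Sublist l
  | m, [], l => by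
    cases m <;> simp only [lifts, List.mem_singleton, List.map_eq_nil_iff] <;>
      exact ⟨fun h => ⟨h, h ▸ pat_not_nil _⟩, fun h => h.1⟩
  | m, (x + 1) :: e, l => by
    have : lifts m ((x + 1) :: e) = (lifts m e).map ((x + 2) :: ·) := by cases m <;> rfl
    rw [this, List.mem_map]
    simp only [mem_lifts m e]
    constructor
    · rintro ⟨l', ⟨h1, h2⟩, rfl⟩
      exact ⟨by simp [h1], by rwa [pat_cons_big]⟩
    · rintro ⟨h1, h2⟩
      obtain ⟨y, l', rfl, h3, h4⟩ := List.map_eq_cons_iff.1 h1
      have : y = x + 2 := by omega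
      subst this
      exact ⟨l', ⟨h4, by rwa [pat_cons_big] at h2⟩, rfl⟩
  | 0, 0 :: e, l => by
    simp only [lifts, List.mem_map, mem_lifts 0 e, pat_zero, List.singleton_sublist]
    constructor
    · rintro ⟨l', ⟨h1, h2⟩, rfl⟩
      exact ⟨by simp [h1], by simpa using h2⟩
    · rintro ⟨h1, h2⟩
      obtain ⟨y, l', rfl, h3, h4⟩ := List.map_eq_cons_iff.1 h1
      simp only [List.mem_cons, not_or] at h2
      have : y = 1 := by omega
      subst this
      exact ⟨l', ⟨h4, h2.2⟩, rfl⟩
  | m + 1, 0 :: e, l => by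
    have k0 : ∀ l' : List ℕ, (pat (m + 1)).Sublist (0 :: l') ↔ (pat (m + 1)).Sublist l' := by
      intro l'; rw [pat_succ, List.cons_sublist_cons']; simp
    have k1 : ∀ l' : List ℕ, (pat (m + 1)).Sublist (1 :: l') ↔ (pat m).Sublist l' := by
      intro l'; rw [pat_succ, List.cons_sublist_cons]
    simp only [lifts, List.mem_append, List.mem_map, mem_lifts (m + 1) e, mem_lifts m e]
    constructor
    · rintro (⟨l', ⟨h1, h2⟩, rfl⟩ | ⟨l', ⟨h1, h2⟩, rfl⟩)
      · exact ⟨by simp [h1], by rwa [k0]⟩
      · exact ⟨by simp [h1], by rwa [k1]⟩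
    · rintro ⟨h1, h2⟩
      obtain ⟨y, l', rfl, h3, h4⟩ := List.map_eq_cons_iff.1 h1
      have : y = 0 ∨ y = 1 := by omega
      rcases this with rfl | rfl
      · exact Or.inl ⟨l', ⟨h4, by rwa [k0] at h2⟩, rfl⟩
      · exact Or.inr ⟨l', ⟨h4, by rwa [k1] at h2⟩, rfl⟩

theorem nodup_lifts : ∀ (m : ℕ) (e : List ℕ), (lifts m e).Nodup
  | m, [] => by cases m <;> simp [lifts]
  | m, (x + 1) :: e => by
    have : lifts m ((x + 1) :: e) = (lifts m e).map ((x + 2) :: ·) := by cases m <;> rfl
    rw [this]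
    exact (nodup_lifts m e).map List.cons_injective
  | 0, 0 :: e => (nodup_lifts 0 e).map List.cons_injective
  | m + 1, 0 :: e => by
    simp only [lifts]
    refine List.Nodup.append ((nodup_lifts (m + 1) e).map List.cons_injective)
      ((nodup_lifts m e).map List.cons_injective) ?_
    intro l h1 h2
    obtain ⟨a, -, rfl⟩ := List.mem_map.1 h1
    obtain ⟨b, -, hb⟩ := List.mem_map.1 h2
    simp at hb

/-- Weighted count of the lifts. -/
def wt (m : ℕ) (e : List ℕ) (f : ℕ → ℤ) : ℤ := ((lifts m e).map (fun l => f (l.count 0))).sum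

theorem wt_big (m x : ℕ) (e : List ℕ) (f : ℕ → ℤ) : wt m ((x + 1) :: e) f = wt m e f := by
  have : lifts m ((x + 1) :: e) = (lifts m e).map ((x + 2) :: ·) := by cases m <;> rfl
  simp [wt, this, Function.comp_def]

theorem wt_zero_zero (e : List ℕ) (f : ℕ → ℤ) : wt 0 (0 :: e) f = wt 0 e f := by
  simp [wt, lifts, Function.comp_def]

theorem wt_succ_zero (m : ℕ) (e : List ℕ) (f : ℕ → ℤ) :
    wt (m + 1) (0 :: e) f = wt (m + 1) e (fun k => f (k + 1)) + wt m e f := by
  simp [wt, lifts, Function.comp_def]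

theorem wt0 : ∀ (e : List ℕ) (f : ℕ → ℤ), wt 0 e f = f 0
  | [], f => by simp [wt, lifts]
  | 0 :: e, f => by rw [wt_zero_zero, wt0 e]
  | (x + 1) :: e, f => by rw [wt_big, wt0 e]

theorem wt1 : ∀ (e : List ℕ) (f : ℕ → ℤ), wt 1 e f = ∑ k ∈ Finset.range (e.count 0 + 1), f k
  | [], f => by simp [wt, lifts]
  | 0 :: e, f => by
    rw [wt_succ_zero, wt0, wt1 e, List.count_cons_self, Finset.sum_range_succ' f]
  | (x + 1) :: e, f => by rw [wt_big, wt1 e]; simp

theorem wt2 : ∀ (e : List ℕ) (f : ℕ → ℤ),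
    wt 2 e f = f (e.count 0) + ∑ k ∈ Finset.range (e.count 0), ((k : ℤ) + 1) * f k
  | [], f => by simp [wt, lifts]
  | 0 :: e, f => by
    rw [wt_succ_zero, wt1, wt2 e, List.count_cons_self,
      Finset.sum_range_succ' (fun k => ((k : ℤ) + 1) * f k), Finset.sum_range_succ' f]
    have : ∑ k ∈ Finset.range (e.count 0), (((k + 1 : ℕ) : ℤ) + 1) * f (k + 1) =
        ∑ k ∈ Finset.range (e.count 0), ((k : ℤ) + 1) * f (k + 1) +
          ∑ k ∈ Finset.range (e.count 0), f (k + 1) := by
      rw [← Finset.sum_add_distrib]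
      refine Finset.sum_congr rfl (fun k _ => ?_)
      push_cast
      ring
    rw [this]
    push_cast
    ring
  | (x + 1) :: e, f => by rw [wt_big, wt2 e]; simp

/-- All inversion sequences of length `n` avoiding 110. -/
def allI : ℕ → List (List ℕ)
  | 0 => [[]]
  | n + 1 => (allI n).flatMap (fun e => (lifts 2 e).map (0 :: ·))

/-- Inversion sequence. -/
def IsInv (l : List ℕ) : Prop := ∀ i x : ℕ, l[i]? = some x → x ≤ i

/-- Avoidance of 110. -/
def Av110 (l : List ℕ) : Prop := ∀ a b, [a, a, b].Sublist l → a ≤ b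

theorem isInv_cons (x : ℕ) (l : List ℕ) : IsInv (x :: l) ↔ x = 0 ∧ IsInv (l.map (· - 1)) := by
  constructor
  · intro h
    refine ⟨Nat.le_zero.1 (h 0 x rfl), fun i y hy => ?_⟩
    rw [List.getElem?_map, Option.map_eq_some_iff] at hy
    obtain ⟨w, hw, rfl⟩ := hy
    have := h (i + 1) w (by simpa using hw)
    omega
  · rintro ⟨rfl, h⟩ i y hy
    cases i with
    | zero => simp at hy; omega
    | succ i =>
      simp only [List.getElem?_cons_succ] at hy
      have := h i (y - 1) (by rw [List.getElem?_map, hy]; rfl)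
      omega

theorem av110_cons (l : List ℕ) :
    Av110 (0 :: l) ↔ Av110 (l.map (· - 1)) ∧ ¬ (pat 2).Sublist l := by
  constructor
  · intro h
    refine ⟨fun a b hs => ?_, fun hs => ?_⟩
    · obtain ⟨l', hl', he⟩ := List.sublist_map_iff.1 hs
      obtain ⟨x, l1, rfl, hx, he⟩ := List.map_eq_cons_iff.1 he.symm
      obtain ⟨y, l2, rfl, hy, he⟩ := List.map_eq_cons_iff.1 he
      obtain ⟨w, l3, rfl, hw, he⟩ := List.map_eq_cons_iff.1 he
      rw [List.map_eq_nil_iff] at he
      subst he
      by_contra hab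
      have hxy : y = x := by omega
      subst hxy
      have := h y w (hl'.cons 0)
      omega
    · have := h 1 0 (hs.cons 0)
      omega
  · rintro ⟨h1, h2⟩ a b hs
    by_contra hab
    rcases List.cons_sublist_cons'.1 hs with hs | ⟨h, -⟩
    · by_cases ha : a = 1
      · have hb : b = 0 := by omega
        subst ha hb
        exact h2 hs
      · have := h1 (a - 1) (b - 1) (hs.map (· - 1))
        omega
    · omega

theorem mem_allI : ∀ (n : ℕ) (l : List ℕ), l ∈ allI n ↔ l.length = n ∧ IsInv l ∧ Av110 l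
  | 0, l => by
    simp only [allI, List.mem_singleton, List.length_eq_zero_iff]
    refine ⟨fun h => ?_, fun h => h.1⟩
    subst h
    exact ⟨rfl, fun i x h => by simp at h, fun a b h => by simp at h⟩
  | n + 1, l => by
    simp only [allI, List.mem_flatMap, List.mem_map, mem_allI n, mem_lifts]
    constructor
    · rintro ⟨e, ⟨h1, h2, h3⟩, l', ⟨rfl, h4⟩, rfl⟩
      exact ⟨by simpa using h1, (isInv_cons 0 l').2 ⟨rfl, h2⟩, (av110_cons l').2 ⟨h3, h4⟩⟩
    · rintro ⟨h1, h2, h3⟩
      cases l with
      | nil => simp at h1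
      | cons x l' =>
        obtain ⟨rfl, h4⟩ := (isInv_cons x l').1 h2
        obtain ⟨h5, h6⟩ := (av110_cons l').1 h3
        exact ⟨_, ⟨by simpa using h1, h4, h5⟩, l', ⟨rfl, h6⟩, rfl⟩

theorem nodup_allI : ∀ n : ℕ, (allI n).Nodup
  | 0 => by simp [allI]
  | n + 1 => by
    simp only [allI]
    rw [List.nodup_flatMap]
    refine ⟨fun e _ => (nodup_lifts 2 e).map List.cons_injective, ?_⟩
    refine (nodup_allI n).imp (fun {e e'} hne l h1 h2 => ?_)
    obtain ⟨a, ha, rfl⟩ := List.mem_map.1 h1
    obtain ⟨b, hb, he⟩ := List.mem_map.1 h2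
    simp only [List.cons.injEq, true_and] at he
    subst he
    exact hne (((mem_lifts 2 e b).1 ha).1.symm.trans ((mem_lifts 2 e' b).1 hb).1)

open PowerSeries

theorem coeff_opI (z : ℤ⟦X⟧) (j : ℕ) :
    coeff j (opI z) = ∑ k ∈ Finset.range j, ((k : ℤ) + 1) * coeff (k + 1) z := by
  induction j with
  | zero => simp [opI]
  | succ j ih =>
    have h : opI z = X * opI z + X * d⁄dX ℤ z := by
      have := uu_mul
      simp only [opI]
      linear_combination (X * d⁄dX ℤ z) * this
    rw [Finset.sum_range_succ, ← ih]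
    conv_lhs => rw [h]
    rw [map_add, coeff_succ_X_mul, coeff_succ_X_mul, coeff_derivative]
    ring

theorem sum_allI : ∀ (n : ℕ) (z : ℤ⟦X⟧),
    ((allI n).map (fun l => coeff (l.count 0) z)).sum = EE n z
  | 0, z => by simp [allI, EE]
  | n + 1, z => by
    simp only [EE]
    rw [← sum_allI n]
    simp only [allI]
    generalize allI n = L
    induction L with
    | nil => simp
    | cons e L ih =>
      simp only [List.flatMap_cons, List.map_append, List.sum_append, ih, List.map_cons,
        List.sum_cons, List.map_map, Function.comp_def, List.count_cons_self]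
      congr 1
      have := wt2 e (fun k => coeff (k + 1) z)
      simp only [wt] at this
      rw [this, map_add, coeff_opI, opL, coeff_mk, add_comm]

theorem length_filter_allI (n k : ℕ) :
    (((allI n).filter (fun l => l.count 0 = k)).length : ℤ) = EE n (X ^ k) := by
  rw [← sum_allI]
  generalize allI n = L
  induction L with
  | nil => simp
  | cons e L ih =>
    rw [List.map_cons, List.sum_cons, ← ih]
    simp only [List.filter_cons, coeff_X_pow, decide_eq_true_eq]
    split_ifs <;> simp [add_comm]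

theorem count_eq (n k : ℕ) :
    (all n 0 (.F k)).length = ((allI n).filter (fun l => l.count 0 = k)).length := by
  have h1 := length_all n 0 (.F k)
  have h2 := length_filter_allI n k
  simp only [zz] at h1
  exact_mod_cast h1.trans h2.symm

end Pool.Agent.H349Z.PC
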