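import Pool.Agent.H349Z.PC.Words

/-!
States of the insertion process (letters inserted in increasing order) and their fillings.
-/

namespace Pool.Agent.H349Z.PC

/-- States: a word with `r` right-to-left minima, a free word, two states in order, an open block. -/
inductive St : Type
  | F (r : ℕ) : St
  | G : St
  | C (a b : St) : St
  | B (a : St) : St

/-- Fillings of states by words. -/
inductive Fl : Type
  | f (l : List ℕ) : Fl
  | c (x y : Fl) : Fl
  | b (x : Fl) (l : List ℕ) : Fl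

def lab : Fl → List ℕ
  | .f l => l
  | .c x y => lab x ++ lab y
  | .b x l => lab x ++ l

def lv : Fl → List ℕ
  | .f l => lvs l
  | .c x y => lv x ++ lv y
  | .b x l => lv x ++ lvs l

def ok : St → Fl → Prop
  | .F r, .f l => Av l ∧ rmin l = r
  | .G, .f l => Av l
  | .C a b, .c x y => ok a x ∧ ok b y ∧ ∀ p ∈ lab x, ∀ q ∈ lv y, p ≤ q
  | .B a, .b x l => ok a x ∧ l ≠ [] ∧ Av l ∧ ∀ p ∈ lab x, ∀ q ∈ tops l, p ≤ q
  | _, _ => False

def nul : St → Bool
  | .F r => decide (r = 0)
  | .G => true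
  | .C a b => nul a && nul b
  | .B _ => false

def emp : St → Fl
  | .C a b => .c (emp a) (emp b)
  | _ => .f []

def join (t : ℕ) : Fl → Fl
  | .b (.f τ) l => .f (l ++ t :: τ)
  | φ => φ

def consF (t : ℕ) : Fl → Fl
  | .f τ => .f (t :: τ)
  | φ => φ

def onL (g : Fl → Fl) : Fl → Fl
  | .c x y => .c (g x) y
  | φ => φ

def onR (g : Fl → Fl) : Fl → Fl
  | .c x y => .c x (g y)
  | φ => φ

def onB (g : Fl → Fl) : Fl → Fl
  | .b x l => .b (g x) l
  | φ => φ

def joinB (t : ℕ) : Fl → Fl
  | .b (.c x (.f τ)) l => .b x (l ++ t :: τ)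
  | φ => φ

def consB (t : ℕ) : Fl → Fl
  | .c x (.f τ) => .b x (t :: τ)
  | φ => φ

def onE (e : Fl) (g : Fl → Fl) : Fl → Fl := fun φ => .c e (g φ)

/-- Moves placing `t` as a letter that is neither first nor an ascent top. -/
def mvI (t : ℕ) : St → List (St × (Fl → Fl))
  | .F 0 => []
  | .F (r + 1) => [(.B (.F r), join t)]
  | .G => [(.B .G, join t)]
  | .C a b => (mvI t a).map (fun m => (.C m.1 b, onL m.2)) ++
      (mvI t b).map (fun m => (.C a m.1, onR m.2))
  | .B a => (mvI t a).map (fun m => (.B m.1, onB m.2)) ++ [(.B (.C a .G), joinB t)]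

/-- Moves placing `t` as a first letter. -/
def mvL (t : ℕ) : St → List (St × (Fl → Fl))
  | .F 0 => []
  | .F (r + 1) => [(.F r, consF t)]
  | .G => [(.G, consF t)]
  | .C a b => (mvL t a).map (fun m => (.C m.1 b, onL m.2)) ++
      (if nul a then (mvL t b).map (fun m => (m.1, onE (emp a) m.2)) else [])
  | .B a => (mvL t a).map (fun m => (.B m.1, onB m.2)) ++ [(.C a .G, consB t)]

theorem lv_sub : ∀ (φ : Fl) (q : ℕ), q ∈ lv φ → q ∈ lab φ
  | .f l, q, h => lvs_sub l q h
  | .c x y, q, h => by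
    simp only [lv, lab, List.mem_append] at h ⊢
    exact h.imp (lv_sub x q) (lv_sub y q)
  | .b x l, q, h => by
    simp only [lv, lab, List.mem_append] at h ⊢
    exact h.imp (lv_sub x q) (lvs_sub l q)

theorem ok_F {r : ℕ} {φ : Fl} (h : ok (.F r) φ) : ∃ l, φ = .f l ∧ Av l ∧ rmin l = r := by
  cases φ <;> simp_all [ok]

theorem ok_G {φ : Fl} (h : ok .G φ) : ∃ l, φ = .f l ∧ Av l := by
  cases φ <;> simp_all [ok]

theorem ok_C {a b : St} {φ : Fl} (h : ok (.C a b) φ) :
    ∃ x y, φ = .c x y ∧ ok a x ∧ ok b y ∧ ∀ p ∈ lab x, ∀ q ∈ lv y, p ≤ q := by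
  cases φ with
  | c x y => exact ⟨x, y, rfl, h⟩
  | f l => simp [ok] at h
  | b x l => simp [ok] at h

theorem ok_B {a : St} {φ : Fl} (h : ok (.B a) φ) :
    ∃ x l, φ = .b x l ∧ ok a x ∧ l ≠ [] ∧ Av l ∧ ∀ p ∈ lab x, ∀ q ∈ tops l, p ≤ q := by
  cases φ with
  | b x l => exact ⟨x, l, rfl, h⟩
  | f l => simp [ok] at h
  | c x y => simp [ok] at h

theorem emp_ok : ∀ W : St, nul W = true → ok W (emp W) ∧ lab (emp W) = [] ∧ lv (emp W) = []
  | .F r, h => by
    simp only [nul, decide_eq_true_eq] at h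
    simp [ok, emp, lab, lv, lvs, Av, rmin, h]
  | .G, _ => by simp [ok, emp, lab, lv, lvs, Av]
  | .C a b, h => by
    simp only [nul, Bool.and_eq_true] at h
    have ha := emp_ok a h.1
    have hb := emp_ok b h.2
    simp [ok, emp, lab, lv, ha, hb]
  | .B a, h => by simp [nul] at h

theorem eq_emp : ∀ (W : St) (φ : Fl), ok W φ → lab φ = [] → nul W = true ∧ φ = emp W
  | .F r, φ, h, hl => by
    obtain ⟨l, rfl, -, h2⟩ := ok_F h
    simp only [lab] at hl
    subst hl
    simp only [rmin] at h2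
    simp [nul, emp, h2]
  | .G, φ, h, hl => by
    obtain ⟨l, rfl, -⟩ := ok_G h
    simp only [lab] at hl
    subst hl
    simp [nul, emp]
  | .C a b, φ, h, hl => by
    obtain ⟨x, y, rfl, h1, h2, -⟩ := ok_C h
    simp only [lab, List.append_eq_nil_iff] at hl
    have ha := eq_emp a x h1 hl.1
    have hb := eq_emp b y h2 hl.2
    simp [nul, emp, ha.1, hb.1, ← ha.2, ← hb.2]
  | .B a, φ, h, hl => by
    obtain ⟨x, l, rfl, -, h2, -⟩ := ok_B h
    simp only [lab, List.append_eq_nil_iff] at hl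
    exact absurd hl.2 h2

/-- A filling of `W` by letters larger than `t`. -/
def Good (t : ℕ) (W : St) (φ : Fl) : Prop := ok W φ ∧ ∀ p ∈ lab φ, t < p

theorem soundI (t : ℕ) : ∀ (W : St), ∀ m ∈ mvI t W, ∀ φ, Good t m.1 φ →
    ok W (m.2 φ) ∧ (lab (m.2 φ)).Perm (t :: lab φ) ∧ ∀ q, q ∈ lv (m.2 φ) ↔ q ∈ lv φ
  | .F 0, m, hm, _, _ => by simp [mvI] at hm
  | .F (r + 1), m, hm, φ, ⟨h, ht⟩ => by
    simp only [mvI, List.mem_singleton] at hm
    subst hm
    obtain ⟨x, l, rfl, h1, h2, h3, h4⟩ := ok_B h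
    obtain ⟨τ, rfl, h5, h6⟩ := ok_F h1
    simp only [lab, List.mem_append] at ht h4
    have hτ : ∀ p ∈ τ, t < p := fun p hp => ht p (Or.inl hp)
    have hl : ∀ p ∈ l, t < p := fun p hp => ht p (Or.inr hp)
    simp only [join, ok, lab, lv, av_split t τ hτ l hl, rmin_split t τ hτ l hl,
      lvs_split t τ hτ l hl h2, List.mem_append]
    refine ⟨⟨⟨h3, h5, h4⟩, by rw [h6]⟩, ?_, fun q => or_comm⟩
    exact List.perm_middle.trans (List.Perm.cons t List.perm_append_comm)
  | .G, m, hm, φ, ⟨h, ht⟩ => by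
    simp only [mvI, List.mem_singleton] at hm
    subst hm
    obtain ⟨x, l, rfl, h1, h2, h3, h4⟩ := ok_B h
    obtain ⟨τ, rfl, h5⟩ := ok_G h1
    simp only [lab, List.mem_append] at ht h4
    have hτ : ∀ p ∈ τ, t < p := fun p hp => ht p (Or.inl hp)
    have hl : ∀ p ∈ l, t < p := fun p hp => ht p (Or.inr hp)
    simp only [join, ok, lab, lv, av_split t τ hτ l hl,
      lvs_split t τ hτ l hl h2, List.mem_append]
    refine ⟨⟨h3, h5, h4⟩, ?_, fun q => or_comm⟩
    exact List.perm_middle.trans (List.Perm.cons t List.perm_append_comm)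
  | .C a b, m, hm, φ, ⟨h, ht⟩ => by
    simp only [mvI, List.mem_append, List.mem_map] at hm
    rcases hm with ⟨m', hm', rfl⟩ | ⟨m', hm', rfl⟩
    · obtain ⟨x, y, rfl, h1, h2, h3⟩ := ok_C h
      simp only [lab, List.mem_append] at ht
      obtain ⟨i1, i2, i3⟩ := soundI t a m' hm' x ⟨h1, fun p hp => ht p (Or.inl hp)⟩
      simp only [onL, ok, lab, lv, List.mem_append, i3, implies_true, and_true]
      refine ⟨⟨i1, h2, fun p hp q hq => ?_⟩, i2.append_right _⟩
      rcases List.mem_cons.1 (i2.subset hp) with rfl | hp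
      · exact (ht q (Or.inr (lv_sub y q hq))).le
      · exact h3 p hp q hq
    · obtain ⟨x, y, rfl, h1, h2, h3⟩ := ok_C h
      simp only [lab, List.mem_append] at ht
      obtain ⟨i1, i2, i3⟩ := soundI t b m' hm' y ⟨h2, fun p hp => ht p (Or.inr hp)⟩
      simp only [onR, ok, lab, lv, List.mem_append, i3, implies_true, and_true]
      exact ⟨⟨h1, i1, h3⟩, (i2.append_left _).trans List.perm_middle⟩
  | .B a, m, hm, φ, ⟨h, ht⟩ => by
    simp only [mvI, List.mem_append, List.mem_map, List.mem_singleton] at hm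
    rcases hm with ⟨m', hm', rfl⟩ | rfl
    · obtain ⟨x, l, rfl, h1, h2, h3, h4⟩ := ok_B h
      simp only [lab, List.mem_append] at ht
      obtain ⟨i1, i2, i3⟩ := soundI t a m' hm' x ⟨h1, fun p hp => ht p (Or.inl hp)⟩
      simp only [onB, ok, lab, lv, List.mem_append, i3, implies_true, and_true]
      refine ⟨⟨i1, h2, h3, fun p hp q hq => ?_⟩, i2.append_right _⟩
      rcases List.mem_cons.1 (i2.subset hp) with rfl | hp
      · exact (ht q (Or.inr (tops_sub l q hq))).le
      · exact h4 p hp q hq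
    · obtain ⟨z, l, rfl, h1, h2, h3, h4⟩ := ok_B h
      obtain ⟨x, y, rfl, h5, h6, h7⟩ := ok_C h1
      obtain ⟨τ, rfl, h8⟩ := ok_G h6
      simp only [lab, lv, List.mem_append] at ht h4 h7
      have hτ : ∀ p ∈ τ, t < p := fun p hp => ht p (Or.inl (Or.inr hp))
      have hl : ∀ p ∈ l, t < p := fun p hp => ht p (Or.inr hp)
      simp only [joinB, ok, lab, lv, av_split t τ hτ l hl, tops_split t τ hτ l hl,
        lvs_split t τ hτ l hl h2, List.mem_append]
      refine ⟨⟨h5, by simp, ⟨h3, h8, fun p hp q hq => h4 p (Or.inr hp) q hq⟩, ?_⟩, ?_,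
        fun q => by tauto⟩
      · intro p hp q hq
        rcases hq with hq | hq
        · exact h4 p (Or.inl hp) q hq
        · exact h7 p hp q hq
      · rw [List.append_assoc]
        exact (List.Perm.append_left _ (List.perm_middle.trans
          (List.Perm.cons t List.perm_append_comm))).trans List.perm_middle

theorem soundL (t : ℕ) : ∀ (W : St), ∀ m ∈ mvL t W, ∀ φ, Good t m.1 φ →
    ok W (m.2 φ) ∧ (lab (m.2 φ)).Perm (t :: lab φ) ∧ ∀ q, q ∈ lv (m.2 φ) ↔ q = t ∨ q ∈ lv φ
  | .F 0, m, hm, _, _ => by simp [mvL] at hm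
  | .F (r + 1), m, hm, φ, ⟨h, ht⟩ => by
    simp only [mvL, List.mem_singleton] at hm
    subst hm
    obtain ⟨τ, rfl, h5, h6⟩ := ok_F h
    simp only [lab] at ht
    have := rmin_split t τ ht [] (by simp)
    simp only [List.nil_append] at this
    simp [consF, ok, lab, lv, av_cons_min t τ ht, this, lvs_cons_min t τ ht, h5, h6]
  | .G, m, hm, φ, ⟨h, ht⟩ => by
    simp only [mvL, List.mem_singleton] at hm
    subst hm
    obtain ⟨τ, rfl, h5⟩ := ok_G h
    simp only [lab] at ht
    simp [consF, ok, lab, lv, av_cons_min t τ ht, lvs_cons_min t τ ht, h5]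
  | .C a b, m, hm, φ, ⟨h, ht⟩ => by
    simp only [mvL, List.mem_append, List.mem_map] at hm
    rcases hm with ⟨m', hm', rfl⟩ | hm
    · obtain ⟨x, y, rfl, h1, h2, h3⟩ := ok_C h
      simp only [lab, List.mem_append] at ht
      obtain ⟨i1, i2, i3⟩ := soundL t a m' hm' x ⟨h1, fun p hp => ht p (Or.inl hp)⟩
      simp only [onL, ok, lab, lv, List.mem_append, i3]
      refine ⟨⟨i1, h2, fun p hp q hq => ?_⟩, i2.append_right _, fun q => or_assoc⟩
      rcases List.mem_cons.1 (i2.subset hp) with rfl | hp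
      · exact (ht q (Or.inr (lv_sub y q hq))).le
      · exact h3 p hp q hq
    · split_ifs at hm with hn
      · obtain ⟨m', hm', rfl⟩ := List.mem_map.1 hm
        obtain ⟨i1, i2, i3⟩ := soundL t b m' hm' φ ⟨h, ht⟩
        obtain ⟨e1, e2, e3⟩ := emp_ok a hn
        simp only [onE, ok, lab, lv, e2, e3, List.nil_append, i3]
        exact ⟨⟨e1, i1, by simp⟩, i2, by simp⟩
      · simp at hm
  | .B a, m, hm, φ, ⟨h, ht⟩ => by
    simp only [mvL, List.mem_append, List.mem_map, List.mem_singleton] at hm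
    rcases hm with ⟨m', hm', rfl⟩ | rfl
    · obtain ⟨x, l, rfl, h1, h2, h3, h4⟩ := ok_B h
      simp only [lab, List.mem_append] at ht
      obtain ⟨i1, i2, i3⟩ := soundL t a m' hm' x ⟨h1, fun p hp => ht p (Or.inl hp)⟩
      simp only [onB, ok, lab, lv, List.mem_append, i3]
      refine ⟨⟨i1, h2, h3, fun p hp q hq => ?_⟩, i2.append_right _, fun q => or_assoc⟩
      rcases List.mem_cons.1 (i2.subset hp) with rfl | hp
      · exact (ht q (Or.inr (tops_sub l q hq))).le
      · exact h4 p hp q hq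
    · obtain ⟨x, y, rfl, h5, h6, h7⟩ := ok_C h
      obtain ⟨τ, rfl, h8⟩ := ok_G h6
      simp only [lab, lv, List.mem_append] at ht h7
      have hτ : ∀ p ∈ τ, t < p := fun p hp => ht p (Or.inr hp)
      simp only [consB, ok, lab, lv, av_cons_min t τ hτ, tops_cons_min t τ hτ,
        lvs_cons_min t τ hτ, List.mem_append, List.mem_cons]
      exact ⟨⟨h5, by simp, h8, h7⟩, List.perm_middle, fun q => by tauto⟩

theorem perm_split {t : ℕ} {u v X : List ℕ} (h : (u ++ v).Perm (t :: X)) :
    (∃ u', u.Perm (t :: u') ∧ (u' ++ v).Perm X) ∨ (∃ v', v.Perm (t :: v') ∧ (u ++ v').Perm X) := by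
  have ht : t ∈ u ++ v := h.symm.subset (by simp)
  rcases List.mem_append.1 ht with h1 | h1
  · left
    refine ⟨u.erase t, List.perm_cons_erase h1, ?_⟩
    have h2 : (t :: (u.erase t ++ v)).Perm (t :: X) :=
      ((List.perm_cons_erase h1).append_right v).symm.trans h
    exact h2.cons_inv
  · right
    refine ⟨v.erase t, List.perm_cons_erase h1, ?_⟩
    have h2 : (t :: (u ++ v.erase t)).Perm (t :: X) :=
      (List.perm_middle.symm.trans ((List.perm_cons_erase h1).append_left u).symm).trans h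
    exact h2.cons_inv

theorem word_split {t : ℕ} {l X : List ℕ} (h : l.Perm (t :: X)) (hX : ∀ p ∈ X, t < p) :
    ∃ u τ, l = u ++ t :: τ ∧ (∀ p ∈ u, t < p) ∧ (∀ p ∈ τ, t < p) := by
  obtain ⟨u, τ, rfl⟩ := List.append_of_mem (h.symm.subset (List.mem_cons_self (a := t) (l := X)))
  have h2 : (u ++ τ).Perm X := (List.perm_middle.symm.trans h).cons_inv
  exact ⟨u, τ, rfl, fun p hp => hX p (h2.subset (List.mem_append_left _ hp)),
    fun p hp => hX p (h2.subset (List.mem_append_right _ hp))⟩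

theorem complete (t : ℕ) : ∀ (W : St) (φ : Fl) (X : List ℕ), ok W φ → (lab φ).Perm (t :: X) →
    (∀ p ∈ X, t < p) →
    (∃ m ∈ mvI t W, ∃ ψ, Good t m.1 ψ ∧ m.2 ψ = φ) ∨ (∃ m ∈ mvL t W, ∃ ψ, Good t m.1 ψ ∧ m.2 ψ = φ)
  | .F r, φ, X, h, hp, hX => by
    obtain ⟨l, rfl, h1, h2⟩ := ok_F h
    obtain ⟨u, τ, rfl, hu, hτ⟩ := word_split hp hX
    rw [rmin_split t τ hτ u hu] at h2
    rw [av_split t τ hτ u hu] at h1
    subst h2
    by_cases hne : u = []
    · subst hne
      right
      exact ⟨(.F (rmin τ), consF t), List.mem_singleton.2 rfl, .f τ, ⟨⟨h1.2.1, rfl⟩, hτ⟩, rfl⟩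
    · left
      refine ⟨(.B (.F (rmin τ)), join t), List.mem_singleton.2 rfl, .b (.f τ) u,
        ⟨⟨⟨h1.2.1, rfl⟩, hne, h1.1, h1.2.2⟩, ?_⟩, rfl⟩
      intro p hp
      rcases List.mem_append.1 hp with hp | hp
      · exact hτ p hp
      · exact hu p hp
  | .G, φ, X, h, hp, hX => by
    obtain ⟨l, rfl, h1⟩ := ok_G h
    obtain ⟨u, τ, rfl, hu, hτ⟩ := word_split hp hX
    rw [av_split t τ hτ u hu] at h1
    by_cases hne : u = []
    · subst hne
      right
      exact ⟨(.G, consF t), List.mem_singleton.2 rfl, .f τ, ⟨h1.2.1, hτ⟩, rfl⟩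
    · left
      refine ⟨(.B .G, join t), List.mem_singleton.2 rfl, .b (.f τ) u,
        ⟨⟨h1.2.1, hne, h1.1, h1.2.2⟩, ?_⟩, rfl⟩
      intro p hp
      rcases List.mem_append.1 hp with hp | hp
      · exact hτ p hp
      · exact hu p hp
  | .C a b, φ, X, h, hp, hX => by
    obtain ⟨x, y, rfl, h1, h2, h3⟩ := ok_C h
    rcases perm_split hp with ⟨u', hu, hu'⟩ | ⟨v', hv, hv'⟩
    · have hy : ∀ p ∈ lab y, t < p := fun p hp => hX p (hu'.subset (List.mem_append_right _ hp))
      have key : ∀ (g : Fl → Fl) (W' : St) (ψ : Fl), Good t W' ψ → g ψ = x →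
          (lab (g ψ)).Perm (t :: lab ψ) → Good t (.C W' b) (.c ψ y) := by
        intro g W' ψ hg he hl
        refine ⟨⟨hg.1, h2, fun p hp q hq => h3 p ?_ q hq⟩, fun p hp => ?_⟩
        · rw [← he]; exact hl.symm.subset (List.mem_cons_of_mem _ hp)
        · rcases List.mem_append.1 hp with hp | hp
          · exact hg.2 p hp
          · exact hy p hp
      rcases complete t a x u' h1 hu
        (fun p hp => hX p (hu'.subset (List.mem_append_left _ hp))) with
        ⟨m, hm, ψ, hg, he⟩ | ⟨m, hm, ψ, hg, he⟩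
      · left
        refine ⟨(.C m.1 b, onL m.2), List.mem_append_left _ (List.mem_map_of_mem hm), .c ψ y,
          key m.2 m.1 ψ hg he (soundI t a m hm ψ hg).2.1, ?_⟩
        simp only [onL, he]
      · right
        refine ⟨(.C m.1 b, onL m.2), List.mem_append_left _ (List.mem_map_of_mem hm), .c ψ y,
          key m.2 m.1 ψ hg he (soundL t a m hm ψ hg).2.1, ?_⟩
        simp only [onL, he]
    · have hx : ∀ p ∈ lab x, t < p := fun p hp => hX p (hv'.subset (List.mem_append_left _ hp))
      rcases complete t b y v' h2 hv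
        (fun p hp => hX p (hv'.subset (List.mem_append_right _ hp))) with
        ⟨m, hm, ψ, hg, he⟩ | ⟨m, hm, ψ, hg, he⟩
      · left
        refine ⟨(.C a m.1, onR m.2), List.mem_append_right _ (List.mem_map_of_mem hm), .c x ψ,
          ⟨⟨h1, hg.1, fun p hp q hq => h3 p hp q ?_⟩, fun p hp => ?_⟩, ?_⟩
        · rw [← he]; exact ((soundI t b m hm ψ hg).2.2 q).2 hq
        · rcases List.mem_append.1 hp with hp | hp
          · exact hx p hp
          · exact hg.2 p hp
        · simp only [onR, he]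
      · right
        have ht : t ∈ lv y := by
          rw [← he]; exact ((soundL t b m hm ψ hg).2.2 t).2 (Or.inl rfl)
        have hx0 : lab x = [] := by
          apply List.eq_nil_iff_forall_not_mem.2
          intro p hp
          have := h3 p hp t ht
          have := hx p hp
          omega
        obtain ⟨e1, e2⟩ := eq_emp a x h1 hx0
        refine ⟨(m.1, onE (emp a) m.2), List.mem_append_right _ ?_, ψ, hg, ?_⟩
        · rw [if_pos e1]; exact List.mem_map_of_mem hm
        · simp only [onE, he, e2]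
  | .B a, φ, X, h, hp, hX => by
    obtain ⟨x, l, rfl, h1, h2, h3, h4⟩ := ok_B h
    rcases perm_split hp with ⟨u', hu, hu'⟩ | ⟨v', hv, hv'⟩
    · have hy : ∀ p ∈ l, t < p := fun p hp => hX p (hu'.subset (List.mem_append_right _ hp))
      have key : ∀ (g : Fl → Fl) (W' : St) (ψ : Fl), Good t W' ψ → g ψ = x →
          (lab (g ψ)).Perm (t :: lab ψ) → Good t (.B W') (.b ψ l) := by
        intro g W' ψ hg he hl
        refine ⟨⟨hg.1, h2, h3, fun p hp q hq => h4 p ?_ q hq⟩, fun p hp => ?_⟩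
        · rw [← he]; exact hl.symm.subset (List.mem_cons_of_mem _ hp)
        · rcases List.mem_append.1 hp with hp | hp
          · exact hg.2 p hp
          · exact hy p hp
      rcases complete t a x u' h1 hu
        (fun p hp => hX p (hu'.subset (List.mem_append_left _ hp))) with
        ⟨m, hm, ψ, hg, he⟩ | ⟨m, hm, ψ, hg, he⟩
      · left
        refine ⟨(.B m.1, onB m.2), List.mem_append_left _ (List.mem_map_of_mem hm), .b ψ l,
          key m.2 m.1 ψ hg he (soundI t a m hm ψ hg).2.1, ?_⟩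
        simp only [onB, he]
      · right
        refine ⟨(.B m.1, onB m.2), List.mem_append_left _ (List.mem_map_of_mem hm), .b ψ l,
          key m.2 m.1 ψ hg he (soundL t a m hm ψ hg).2.1, ?_⟩
        simp only [onB, he]
    · have hx : ∀ p ∈ lab x, t < p := fun p hp => hX p (hv'.subset (List.mem_append_left _ hp))
      obtain ⟨u, τ, rfl, hu, hτ⟩ := word_split hv
        (fun p hp => hX p (hv'.subset (List.mem_append_right _ hp)))
      rw [av_split t τ hτ u hu] at h3
      rw [tops_split t τ hτ u hu] at h4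
      have hc : ok (.C a .G) (.c x (.f τ)) :=
        ⟨h1, h3.2.1, fun p hp q hq => h4 p hp q (List.mem_append_right _ hq)⟩
      by_cases hne : u = []
      · subst hne
        right
        refine ⟨(.C a .G, consB t), List.mem_append_right _ (List.mem_singleton.2 rfl),
          .c x (.f τ), ⟨hc, fun p hp => ?_⟩, rfl⟩
        rcases List.mem_append.1 hp with hp | hp
        · exact hx p hp
        · exact hτ p hp
      · left
        refine ⟨(.B (.C a .G), joinB t), List.mem_append_right _ (List.mem_singleton.2 rfl),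
          .b (.c x (.f τ)) u, ⟨⟨hc, hne, h3.1, fun p hp q hq => ?_⟩, fun p hp => ?_⟩, rfl⟩
        · rcases List.mem_append.1 hp with hp | hp
          · exact h4 p hp q (List.mem_append_left _ hq)
          · exact h3.2.2 p hp q hq
        · rcases List.mem_append.1 hp with hp | hp
          · rcases List.mem_append.1 hp with hp | hp
            · exact hx p hp
            · exact hτ p hp
          · exact hu p hp

end Pool.Agent.H349Z.PC
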