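import Mathlib

/-!
Words avoiding the vincular pattern 23-1-4: splitting at the smallest letter.
-/

namespace Pool.Agent.H349Z.PC

/-- Ascent tops of a word. -/
def tops : List ℕ → List ℕ
  | b :: c :: l => (if b < c then [c] else []) ++ tops (c :: l)
  | _ => []

/-- The first letter and the ascent tops. -/
def lvs : List ℕ → List ℕ
  | [] => []
  | c :: l => c :: tops (c :: l)

/-- Avoidance of the vincular pattern 23-1-4. -/
def Av : List ℕ → Prop
  | b :: c :: l => (b < c → ∀ a d, [a, d].Sublist l → a < b → d ≤ c) ∧ Av (c :: l)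
  | _ => True

/-- Number of right-to-left minima. -/
def rmin : List ℕ → ℕ
  | [] => 0
  | x :: l => rmin l + if ∀ y ∈ l, x < y then 1 else 0

theorem tops_sub : ∀ (l : List ℕ) (q : ℕ), q ∈ tops l → q ∈ l
  | [], q, h => by simp [tops] at h
  | [_], q, h => by simp [tops] at h
  | b :: c :: l, q, h => by
    simp only [tops, List.mem_append] at h
    rcases h with h | h
    · split_ifs at h
      · simp only [List.mem_singleton] at h
        simp [h]
      · simp at h
    · exact List.mem_cons_of_mem _ (tops_sub (c :: l) q h)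

theorem lvs_sub (l : List ℕ) (q : ℕ) (h : q ∈ lvs l) : q ∈ l := by
  cases l with
  | nil => simp [lvs] at h
  | cons c l =>
    simp only [lvs, List.mem_cons] at h
    rcases h with h | h
    · simp [h]
    · exact tops_sub _ _ h

theorem tops_cons_min (t : ℕ) (τ : List ℕ) (h : ∀ p ∈ τ, t < p) : tops (t :: τ) = lvs τ := by
  cases τ with
  | nil => simp [tops, lvs]
  | cons c l => simp [tops, lvs, h c (by simp)]

theorem tops_split (t : ℕ) (τ : List ℕ) (h : ∀ p ∈ τ, t < p) :
    ∀ (l : List ℕ), (∀ p ∈ l, t < p) → tops (l ++ t :: τ) = tops l ++ lvs τ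
  | [], _ => by simp [tops_cons_min t τ h, tops]
  | [b], hl => by
    have : ¬ b < t := not_lt.2 (hl b (by simp)).le
    simp [tops, this, tops_cons_min t τ h]
  | b :: c :: l, hl => by
    have ih := tops_split t τ h (c :: l) (fun p hp => hl p (List.mem_cons_of_mem _ hp))
    simp only [List.cons_append] at ih
    simp only [List.cons_append, tops, ih, List.append_assoc]

theorem lvs_split (t : ℕ) (τ : List ℕ) (h : ∀ p ∈ τ, t < p) (l : List ℕ) (hl : ∀ p ∈ l, t < p)
    (hne : l ≠ []) : lvs (l ++ t :: τ) = lvs l ++ lvs τ := by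
  cases l with
  | nil => exact absurd rfl hne
  | cons c l =>
    have := tops_split t τ h (c :: l) hl
    simp only [List.cons_append] at this
    simp only [List.cons_append, lvs, this]

theorem lvs_cons_min (t : ℕ) (τ : List ℕ) (h : ∀ p ∈ τ, t < p) : lvs (t :: τ) = t :: lvs τ := by
  simp only [lvs, tops_cons_min t τ h]

theorem av_cons_min (t : ℕ) (τ : List ℕ) (h : ∀ p ∈ τ, t < p) : Av (t :: τ) ↔ Av τ := by
  cases τ with
  | nil => simp [Av]
  | cons c l =>
    simp only [Av, and_iff_right_iff_imp]
    intro _ _ a d hs ha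
    have : a ∈ l := hs.subset (by simp)
    have := h a (List.mem_cons_of_mem _ this)
    omega

theorem pair_sub_split {a d t : ℕ} {l τ : List ℕ} (h : [a, d].Sublist (l ++ t :: τ)) :
    [a, d].Sublist l ∨ d = t ∨ d ∈ τ := by
  rw [List.sublist_append_iff] at h
  obtain ⟨u, v, huv, hu, hv⟩ := h
  cases v with
  | nil =>
    left
    rw [List.append_nil] at huv
    exact huv ▸ hu
  | cons w v =>
    right
    have hd : d ∈ w :: v := by
      rcases u with _ | ⟨x, _ | ⟨y, u⟩⟩
      · simp only [List.nil_append] at huv
        rw [← huv]; simp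
      · simp only [List.cons_append, List.nil_append, List.cons.injEq] at huv
        simp [huv.2.1]
      · simp at huv
    simpa using hv.subset hd

theorem av_split (t : ℕ) (τ : List ℕ) (h : ∀ p ∈ τ, t < p) :
    ∀ (l : List ℕ), (∀ p ∈ l, t < p) →
      (Av (l ++ t :: τ) ↔ Av l ∧ Av τ ∧ ∀ p ∈ τ, ∀ q ∈ tops l, p ≤ q)
  | [], _ => by simp [av_cons_min t τ h, Av, tops]
  | [b], hl => by
    have : ¬ b < t := not_lt.2 (hl b (by simp)).le
    simp [Av, tops, this, av_cons_min t τ h]
  | b :: c :: l, hl => by
    have ih := av_split t τ h (c :: l) (fun p hp => hl p (List.mem_cons_of_mem _ hp))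
    simp only [List.cons_append] at ih
    have hb : t < b := hl b (by simp)
    have hc : t < c := hl c (by simp)
    simp only [List.cons_append, Av, ih, tops, List.mem_append]
    constructor
    · rintro ⟨h1, h2, h3, h4⟩
      refine ⟨⟨fun hbc a d hs ha => h1 hbc a d (hs.trans (List.sublist_append_left _ _)) ha, h2⟩,
        h3, ?_⟩
      intro p hp q hq
      rcases hq with hq | hq
      · split_ifs at hq with hbc
        · simp only [List.mem_singleton] at hq
          subst hq
          refine h1 hbc t p ?_ hb
          exact (List.Sublist.cons_cons t (List.singleton_sublist.2 hp)).trans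
            (List.sublist_append_right _ _)
        · simp at hq
      · exact h4 p hp q hq
    · rintro ⟨⟨h1, h2⟩, h3, h4⟩
      refine ⟨fun hbc a d hs ha => ?_, h2, h3, fun p hp q hq => h4 p hp q (Or.inr hq)⟩
      rcases pair_sub_split hs with h5 | h5 | h5
      · exact h1 hbc a d h5 ha
      · omega
      · exact h4 d h5 c (Or.inl (by simp [hbc]))

theorem rmin_split (t : ℕ) (τ : List ℕ) (h : ∀ p ∈ τ, t < p) :
    ∀ (l : List ℕ), (∀ p ∈ l, t < p) → rmin (l ++ t :: τ) = rmin τ + 1
  | [], _ => by simp only [List.nil_append, rmin]; rw [if_pos h]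
  | b :: l, hl => by
    have ih := rmin_split t τ h l (fun p hp => hl p (List.mem_cons_of_mem _ hp))
    have hb : t < b := hl b (by simp)
    simp only [List.cons_append, rmin, ih]
    rw [if_neg]
    intro h1
    have := h1 t (by simp)
    omega

theorem split_inj {t : ℕ} {l l' τ τ' : List ℕ} (h1 : ∀ p ∈ l, t < p) (h2 : ∀ p ∈ l', t < p)
    (h : l ++ t :: τ = l' ++ t :: τ') : l = l' ∧ τ = τ' := by
  induction l generalizing l' with
  | nil =>
    cases l' with
    | nil => simpa using h
    | cons x l' =>
      simp only [List.nil_append, List.cons_append, List.cons.injEq] at h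
      have := h2 x (by simp)
      omega
  | cons y l ih =>
    cases l' with
    | nil =>
      simp only [List.nil_append, List.cons_append, List.cons.injEq] at h
      have := h1 y (by simp)
      omega
    | cons x l' =>
      simp only [List.cons_append, List.cons.injEq] at h
      have := ih (fun p hp => h1 p (List.mem_cons_of_mem _ hp))
        (fun p hp => h2 p (List.mem_cons_of_mem _ hp)) h.2
      simp [h.1, this.1, this.2]

end Pool.Agent.H349Z.PC
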